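import Pool.Agent.H57.SD.Two
import Pool.Agent.H57.SD.Ham
import Pool.Agent.H37.TR.Core

/-! Matchings with blocks of two vertices, linear forests with blocks of three vertices. -/

set_option autoImplicit false

namespace Pool.Agent.H37.TR

open Finset Pool.Agent.H57.SD

/-- a matching with isolated vertices and blocks of size two -/
theorem match2 {U : Type} [Fintype U] (M : U → U → Prop) (m N : ℕ) (f : U ⊕ Fin m → Fin N)
    (hf : ∀ i, Nat.card {x // f x = i} = 2) (hs : ∀ u v, M u v → M v u) (hi : ∀ u, ¬ M u u)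
    (hM : ∀ u v w, M u v → M u w → v = w) :
    ∃ c : U ⊕ Fin m → Fin 2, (∀ u v : U, M u v → c (Sum.inl u) ≠ c (Sum.inl v)) ∧
      ∀ x y, f x = f y → c x = c y → x = y := by
  classical
  let G : SimpleGraph (U ⊕ Fin m) :=
    { Adj := fun x y => ∃ u v, x = Sum.inl u ∧ y = Sum.inl v ∧ M u v
      symm := ⟨by
        rintro x y ⟨u, v, hx, hy, h⟩
        exact ⟨v, u, hy, hx, hs u v h⟩⟩
      loopless := ⟨by
        rintro x ⟨u, v, hx, hy, h⟩
        rw [hx] at hy
        have := Sum.inl.inj hy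
        subst this
        exact hi u h⟩ }
  obtain ⟨p, hp1, hp2, hp3⟩ := pairs f (fun i => by
    have := hf i
    rw [card_fib] at this
    rw [this]
    exact even_two)
  obtain ⟨s, hs1, hs2⟩ := two p hp1 hp2 G (by
    rintro u v w ⟨u1, v1, h1, h2, h3⟩ ⟨u2, v2, h4, h5, h6⟩
    have e : u1 = u2 := Sum.inl.inj (h1.symm.trans h4)
    subst e
    rw [h2, h5, hM u1 v1 v2 h3 h6])
  let e : Bool → Fin 2 := fun b => if b then 1 else 0
  have he : Function.Injective e := by
    intro a b h
    cases a <;> cases b <;> simp [e] at h ⊢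
  refine ⟨fun x => e (s x), ?_, ?_⟩
  · intro u v h h'
    exact hs2 _ _ ⟨u, v, rfl, rfl, h⟩ (he h')
  · intro x y hxy hc
    by_contra hne
    have hsxy := he hc
    have h1 : ({x, p x, y} : Finset (U ⊕ Fin m)) ⊆ univ.filter (fun w => f w = f x) := by
      intro z hz
      rw [mem_filter]
      refine ⟨mem_univ _, ?_⟩
      simp only [mem_insert, mem_singleton] at hz
      rcases hz with rfl | rfl | rfl
      · rfl
      · exact hp3 x
      · exact hxy.symm
    have h2 := card_le_card h1
    have h3 : (univ.filter (fun w => f w = f x)).card = 2 := by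
      rw [← card_fib]
      exact hf _
    rw [h3, card_eq_three.2 ⟨x, p x, y, (hp1 x).symm, hne, ?_, rfl⟩] at h2
    · omega
    · intro h
      apply hs1 x
      rw [h]
      exact hsxy.symm

/-- a linear forest with isolated vertices and blocks of size three -/
theorem forest3 {U : Type} [Fintype U] (F : U → U → Prop) (m N : ℕ) (f : U ⊕ Fin m → Fin N)
    (hf : ∀ i, Nat.card {x // f x = i} = 3) (hs : ∀ u v, F u v → F v u) (hi : ∀ u, ¬ F u u)
    (hd : ∀ u a b c, F u a → F u b → F u c → a = b ∨ a = c ∨ b = c)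
    (hl : ∀ X : Finset U, X.Nonempty → ∃ v ∈ X, ∀ a ∈ X, ∀ b ∈ X, F v a → F v b → a = b) :
    ∃ c : U ⊕ Fin m → Fin 3, (∀ u v : U, F u v → c (Sum.inl u) ≠ c (Sum.inl v)) ∧
      ∀ x y, f x = f y → c x = c y → x = y := by
  classical
  let G : SimpleGraph (U ⊕ Fin m) :=
    { Adj := fun x y => ∃ u v, x = Sum.inl u ∧ y = Sum.inl v ∧ F u v
      symm := ⟨by
        rintro x y ⟨u, v, hx, hy, h⟩
        exact ⟨v, u, hy, hx, hs u v h⟩⟩
      loopless := ⟨by
        rintro x ⟨u, v, hx, hy, h⟩
        rw [hx] at hy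
        have := Sum.inl.inj hy
        subst this
        exact hi u h⟩ }
  obtain ⟨c, hc1, hc2⟩ := Pool.Agent.H57.SC.fs57 (U ⊕ Fin m) (Fin N) G f
    (fun i => by
      have := hf i
      rwa [Nat.card_eq_fintype_card, Fintype.card_subtype] at this)
    (by
      intro v
      by_contra hcon
      push Not at hcon
      rw [← SimpleGraph.card_neighborFinset_eq_degree, two_lt_card] at hcon
      obtain ⟨a, ha, b, hb, c, hc, h1, h2, h3⟩ := hcon
      rw [SimpleGraph.mem_neighborFinset] at ha hb hc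
      obtain ⟨v1, a1, e1, rfl, e3⟩ := ha
      obtain ⟨v2, b1, e4, rfl, e6⟩ := hb
      obtain ⟨v3, c1, e7, rfl, e9⟩ := hc
      have e : v1 = v2 := Sum.inl.inj (e1.symm.trans e4)
      subst e
      have e' : v1 = v3 := Sum.inl.inj (e1.symm.trans e7)
      subst e'
      rcases hd v1 a1 b1 c1 e3 e6 e9 with h | h | h
      · exact h1 (by rw [h])
      · exact h2 (by rw [h])
      · exact h3 (by rw [h]))
    (by
      intro X hX
      by_cases hr : ∃ i, (Sum.inr i : U ⊕ Fin m) ∈ X
      · obtain ⟨i, hi⟩ := hr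
        refine ⟨_, hi, ?_⟩
        rw [filter_false_of_mem]
        · simp
        · rintro y _ ⟨u, v, h, _⟩
          exact Sum.inr_ne_inl h
      · push Not at hr
        let Y : Finset U := univ.filter (fun u => (Sum.inl u : U ⊕ Fin m) ∈ X)
        have hY : Y.Nonempty := by
          obtain ⟨x, hx⟩ := hX
          rcases x with u | i
          · exact ⟨u, mem_filter.2 ⟨mem_univ _, hx⟩⟩
          · exact absurd hx (hr i)
        obtain ⟨v, hv, hv'⟩ := hl Y hY
        refine ⟨Sum.inl v, (mem_filter.1 hv).2, ?_⟩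
        rw [card_le_one]
        intro y hy z hz
        rw [mem_filter] at hy hz
        obtain ⟨u1, y1, e1, rfl, e3⟩ := hy.2
        obtain ⟨u2, z1, e4, rfl, e6⟩ := hz.2
        have g1 := Sum.inl.inj e1
        have g2 := Sum.inl.inj e4
        subst g1
        subst g2
        rw [hv' y1 (mem_filter.2 ⟨mem_univ _, hy.1⟩) z1 (mem_filter.2 ⟨mem_univ _, hz.1⟩) e3 e6])
  exact ⟨c, fun u v h => hc1 _ _ ⟨u, v, rfl, rfl, h⟩, hc2⟩

end Pool.Agent.H37.TR
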